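import Pool.Agent.H53.GEO.Slf
import Pool.Agent.H86.GEO.Gdt

/-!
# The slice events of the geometry of the pairs, in a class
-/

set_option autoImplicit false

namespace Pool.JPN

open Finset Real MvPolynomial
open Pool.Agent.H49.Ent Pool.Agent.H32.Dense Pool.STK Pool.KA Pool.KSAT Pool.K2S Pool.PB
  Pool.STAT Pool.STAT.CLO Pool.GEN Pool.M3F Pool.KM7 Pool.S6C
open Pool.GRW (TmWn)
open Pool.GEO (gsy gsy_zero gsy_deg xte lna lnb xte_dig xte_line nw nw_pos nw_mul ren GD EvSf EvS1)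
open Pool.IEN (ms ms_le ms_or ms_ex ms_nonneg)
open Pool.JMS (SF slc_fin)
open Pool.EXS (jdg)

theorem _root_.Pool.JMS.SF.mono {k : ℕ} {Θ Θ' : ℝ} {M K : ℕ} {N₃ : Fin (k + 1) → ℕ}
    {G : Fin (k + 1) → MvPolynomial (Fin (k + 1)) ℝ} {f : MvPolynomial (Fin (k + 1)) ℝ}
    {y : Fin (k + 1) → ℝ} (h : SF Θ M K N₃ G f y) (hΘ : Θ ≤ Θ') : SF Θ' M K N₃ G f y := by
  intro B hB
  have hB0 : 0 ≤ B := by
    have h5 := hB (fun i => ((jdg K (nidx N₃ (ndg M G y)) i.succ : ℕ) : ℝ) / K)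
      (fun i => ⟨le_refl _, by
        refine div_le_div_of_nonneg_right ?_ (Nat.cast_nonneg K)
        linarith⟩)
    exact (abs_nonneg _).trans h5
  exact (h B hB).trans (mul_le_mul_of_nonneg_right hΘ hB0)

/-- **The slice events of the geometry of the pairs, in a class.** -/
theorem ev_sf (k : ℕ) {m : ℕ} {S : PCl m} {w₀ w₁ : ℝ} (h0 : 0 ≤ w₀) (hw01 : w₀ < w₁)
    (hw1 : w₁ ≤ 1) (htm : TmWn S w₀) (K K₂ n₀ D Dq : ℕ) {q X η c : ℝ} (hX : 0 < X)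
    (hη : 0 < η) (hc : 0 < c) :
    ∃ φ : ℝ, 0 < φ ∧ Bas S (fun J F A => 0 < Pe F.p A ∧ ∀ (c₀ c₁ : ℕ → Fin m) (pr φ' : ℝ)
      (β₀ β₁ : ℕ → ℝ) (ρ : Equiv.Perm (Fin (k + 1))) (Pr sg₀ sg kap : ℕ) (g₀ g₁ : ℕ → ℕ) (L : ℝ)
      (V₀ V₁ : Type) (z₀ : PtT F → V₀) (z₀' : LnT F → V₀) (P₀ : V₀ → ℕ → PN)
      (z₁ : PtT F → V₁) (z₁' : LnT F → V₁) (P₁ : V₁ → ℕ → PN)
      (Qh : V₁ → MvPolynomial (Option (Fin (k + 1))) ℝ) (ρz : V₁ → ℝ), φ' ≤ φ →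
      GD F A c₀ c₁ k K Dq w₀ w₁ pr q X φ' β₀ β₁ ρ Pr sg₀ sg kap g₀ g₁ L z₀ z₀' P₀ z₁ z₁' P₁
        Qh ρz →
      ∀ (aF : (Fin (k + 1) → MvPolynomial (Fin (k + 1)) ℝ) →
        MvPolynomial (Option (Fin (k + 1))) ℝ → (Fin (k + 1) → ℤ) → Fin D → Fin n₀ →
          MvPolynomial (Fin (k + 1)) ℝ), (∀ G Q b kk ii, (aF G Q b kk ii).totalDegree ≤ K₂) →
      ∀ Θ : ℝ, Real.exp (η * J) ≤ Θ →
      ms (P2 (Pool.Agent.H49.Ent.cond F.p A True) (slam F ⌊w₀ * J⌋₊)) (fun e =>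
        ¬ (EvSf F c₀ k ⌊w₀ * J⌋₊ ⌊w₁ * J⌋₊ Pr sg ⌊q * J⌋₊ ⌊X * J⌋₊ g₀ ρ z₀ P₀ z₁ P₁ Qh aF Θ e ∧
          EvS1 F c₀ k ⌊w₀ * J⌋₊ ⌊w₁ * J⌋₊ Pr sg ⌊q * J⌋₊ g₀ ρ z₀ P₀ z₁ P₁ Qh aF Θ e)) ≤ c) := by
  obtain ⟨C, Kf, hC, hslf⟩ := slf_mem k K K₂
  have hl2 : 0 < Real.log 2 := Real.log_pos one_lt_two
  obtain ⟨a, ha⟩ : ∃ a : ℝ, a = ((k * Kf + 1 : ℕ) : ℝ) := ⟨_, rfl⟩
  have ha1 : 1 ≤ a := by
    rw [ha]
    exact_mod_cast Nat.le_add_left 1 (k * Kf)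
  have hD0 : (0 : ℝ) ≤ (D : ℝ) * n₀ := by positivity
  -- the numbers
  obtain ⟨h₀, hh₀⟩ : ∃ h₀ : ℝ, h₀ = min (η / (2 * a)) (X * Real.log 2 / 2) := ⟨_, rfl⟩
  have hh0 : 0 < h₀ := by rw [hh₀]; exact lt_min (by positivity) (by positivity)
  have hh1 : a * h₀ ≤ η / 2 := by
    have h1 : h₀ ≤ η / (2 * a) := by rw [hh₀]; exact min_le_left _ _
    rw [le_div_iff₀ (by positivity)] at h1
    linarith
  have hh2 : h₀ ≤ X * Real.log 2 / 2 := by rw [hh₀]; exact min_le_right _ _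
  obtain ⟨ρ', hρ'⟩ : ∃ ρ' : ℝ, ρ' = c * h₀ / (8 * ((D : ℝ) * n₀ + 1) * C) := ⟨_, rfl⟩
  have hρ0 : 0 < ρ' := by rw [hρ']; positivity
  have hρ1 : 8 * ((D : ℝ) * n₀ + 1) * C * ρ' = c * h₀ := by
    rw [hρ']
    field_simp
  obtain ⟨J₁, hJ₁⟩ := exists_nat_ge (2 * Real.log C / η)
  obtain ⟨J₂, hJ₂⟩ := exists_nat_ge (2 * (Real.log C + Real.log 2) / (X * Real.log 2))
  obtain ⟨J₃, hJ₃⟩ := exists_nat_ge (4 * ((D : ℝ) * n₀ * C) / (c * h₀))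
  obtain ⟨J₄, hJ₄⟩ := exists_nat_ge (2 * (Real.log ((k : ℝ) + 1) + Real.log 2) /
    (X * Real.log 2))
  refine ⟨X * Real.log 2 / 2, by positivity, ?_⟩
  refine (tdd_c k K h0 hw01 hw1 htm (C₁ := 1) le_rfl hρ0).mono (J₁ + J₂ + J₃ + J₄ + 1) ?_
  rintro J hJ F A ⟨hA, htd⟩
  refine ⟨hA, ?_⟩
  intro c₀ c₁ pr φ' β₀ β₁ ρ Pr sg₀ sg kap g₀ g₁ L V₀ V₁ z₀ z₀' P₀ z₁ z₁' P₁ Qh ρz hφ H aF haF Θ
    hΘ
  have hJ0 : (0 : ℝ) ≤ J := Nat.cast_nonneg J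
  have hJ1 : (1 : ℝ) ≤ J := by exact_mod_cast (by omega : 1 ≤ J)
  have j1 : Real.log C ≤ η / 2 * J := by
    have h1 : (J₁ : ℝ) ≤ J := by exact_mod_cast (by omega : J₁ ≤ J)
    have h2 := hJ₁.trans h1
    rw [div_le_iff₀ hη] at h2
    linarith
  have j2 : Real.log C + Real.log 2 ≤ X * Real.log 2 / 2 * J := by
    have h1 : (J₂ : ℝ) ≤ J := by exact_mod_cast (by omega : J₂ ≤ J)
    have h2 := hJ₂.trans h1
    rw [div_le_iff₀ (by positivity)] at h2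
    linarith
  have j3 : 2 * ((D : ℝ) * n₀) * C ≤ c / 2 * (h₀ * J) := by
    have h1 : (J₃ : ℝ) ≤ J := by exact_mod_cast (by omega : J₃ ≤ J)
    have h2 := hJ₃.trans h1
    rw [div_le_iff₀ (by positivity)] at h2
    linarith
  have j4 : Real.log ((k : ℝ) + 1) + Real.log 2 ≤ X * Real.log 2 / 2 * J := by
    have h1 : (J₄ : ℝ) ≤ J := by exact_mod_cast (by omega : J₄ ≤ J)
    have h2 := hJ₄.trans h1
    rw [div_le_iff₀ (by positivity)] at h2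
    linarith
  have hX' : X * J - 1 ≤ ((⌊X * (J : ℝ)⌋₊ : ℕ) : ℝ) := by
    have := Nat.lt_floor_add_one (X * (J : ℝ))
    linarith
  have hX'' := mul_le_mul_of_nonneg_right hX' hl2.le
  have hl := isLaw_cond F.isLaw hA
  have hq := P2_isLaw hl (slam F ⌊w₀ * (J : ℝ)⌋₊)
  have hsup : ∀ e, 0 < P2 (Pool.Agent.H49.Ent.cond F.p A True) (slam F ⌊w₀ * (J : ℝ)⌋₊) e →
      A e.1 ∧ slam F ⌊w₀ * (J : ℝ)⌋₊ e.1 = slam F ⌊w₀ * (J : ℝ)⌋₊ e.2 := by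
    intro e he
    obtain ⟨c1, c2, c3⟩ := (P2_pos hl e).1 he
    exact ⟨of_eq_true ((cond_pos_iff F.isLaw.nonneg A True e.1).1 c1).2, c3⟩
  -- the gradients
  have hs : 2 * (1 + ((k + 1 : ℕ) : ℝ) * L) ≤ 2 * 2 ^ ⌊X * (J : ℝ)⌋₊ := by
    have e1 : (1 : ℝ) + ((k + 1 : ℕ) : ℝ) * L ≤ ((k : ℝ) + 1) * (1 + L) := by
      have h1 : (0 : ℝ) ≤ k := Nat.cast_nonneg k
      push_cast
      linarith
    have e2 : ((k : ℝ) + 1) * (1 + L) ≤ 2 ^ ⌊X * (J : ℝ)⌋₊ := by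
      have p1 : (0 : ℝ) < (k : ℝ) + 1 := by positivity
      have p2 : 0 < 1 + L := by linarith [H.L0]
      rw [← Real.log_le_log_iff (by positivity) (by positivity), Real.log_mul p1.ne' p2.ne',
        Real.log_pow]
      have e3 := H.logL
      have e4 := mul_le_mul_of_nonneg_right hφ hJ0
      linarith
    linarith
  have hw : ∀ i < k + 1, wid ⌊w₀ * (J : ℝ)⌋₊ g₀ i + ⌊X * (J : ℝ)⌋₊ ≤ Pr := fun i hi => by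
    have := H.wd0 i hi
    omega
  obtain ⟨t1, t2⟩ := htd _ hq (fun e => by rw [one_mul]) sg₀ sg ⌊X * (J : ℝ)⌋₊ Pr L c₀ g₀ V₀ z₀
    z₀' P₀ H.n0 H.L0 H.WP H.PJ hs hw
  have w0 : wid ⌊w₀ * (J : ℝ)⌋₊ g₀ ((0 : Fin (k + 1)) : ℕ) = ⌊w₀ * (J : ℝ)⌋₊ := by
    rw [Fin.val_zero]
    rfl
  have hd0 := H.dp0 0 (Nat.succ_pos k)
  have hwd0 := H.wd0 0 (Nat.succ_pos k)
  have hCh : C * Real.exp (h₀ * J) ≤
      ((2 ^ (Pr - ⌊w₀ * (J : ℝ)⌋₊ - ⌊q * (J : ℝ)⌋₊) : ℕ) : ℝ) := by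
    have e0 : ⌊X * (J : ℝ)⌋₊ ≤ Pr - ⌊w₀ * (J : ℝ)⌋₊ - ⌊q * (J : ℝ)⌋₊ := by
      have : wid ⌊w₀ * (J : ℝ)⌋₊ g₀ 0 = ⌊w₀ * (J : ℝ)⌋₊ := rfl
      omega
    have e1 : ((2 : ℝ) ^ ⌊X * (J : ℝ)⌋₊) ≤
        ((2 ^ (Pr - ⌊w₀ * (J : ℝ)⌋₊ - ⌊q * (J : ℝ)⌋₊) : ℕ) : ℝ) := by
      push_cast
      exact pow_le_pow_right₀ (by norm_num) e0
    refine le_trans ?_ e1
    have p1 := Real.exp_pos (h₀ * J)
    rw [← Real.log_le_log_iff (by positivity) (by positivity), Real.log_mul (by linarith)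
      p1.ne', Real.log_exp, Real.log_pow]
    have e4 := mul_le_mul_of_nonneg_right hh2 hJ0
    linarith
  have hmain := hslf (Qh := Qh) (h := h₀ * J) (μ := ρ' * J) hq H.n0 H.n1.cls (fun v i => H.n1.deg v i)
    H.W01 H.wd0 ρ haF hsup (by positivity) hCh ((t2 (fun _ => ⌊q * (J : ℝ)⌋₊) 0 (by
      have : wid ⌊w₀ * (J : ℝ)⌋₊ g₀ 0 = ⌊w₀ * (J : ℝ)⌋₊ := rfl
      omega) (fun i => by
      have := H.wd0 i i.2
      omega) (fun i => by omega) _ (fun e => ((slam F ⌊w₁ * (J : ℝ)⌋₊ e.1, e.2),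
        nidx (nw ⌊w₀ * (J : ℝ)⌋₊ Pr g₀ k ⌊q * (J : ℝ)⌋₊)
          (ngp F c₀ k ⌊w₀ * (J : ℝ)⌋₊ ⌊w₁ * (J : ℝ)⌋₊ sg Pr z₀' P₀ e)))
      (fun e e' _ _ a1 a2 a3 => by
        exact Prod.ext (Prod.ext a1 a2) a3)).trans (by
      rw [Nat.cast_zero, zero_mul, mul_zero, add_zero])) (t1 _ (fun e =>
        (slam F ⌊w₀ * (J : ℝ)⌋₊ e.1, nidx (nw ⌊w₀ * (J : ℝ)⌋₊ Pr g₀ k 0)
          (ngp F c₀ k ⌊w₀ * (J : ℝ)⌋₊ ⌊w₁ * (J : ℝ)⌋₊ sg Pr z₀' P₀ e)))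
      (fun e e' he he' a1 a2 => by
        have b1 := (hsup e he).2
        have b2 := (hsup e' he').2
        exact Prod.ext (by rw [b1, b2, a1]) a2))
  refine le_trans (ms_le hq.nonneg ?_) (hmain.trans ?_)
  · intro e _ hnot hall
    refine hnot ?_
    have hΘ' : C * Real.exp (((k * Kf + 1 : ℕ) : ℝ) * (h₀ * J)) ≤ Θ := by
      refine le_trans ?_ hΘ
      have p1 := Real.exp_pos (((k * Kf + 1 : ℕ) : ℝ) * (h₀ * J))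
      rw [← Real.log_le_log_iff (by positivity) (Real.exp_pos _), Real.log_mul (by linarith)
        p1.ne', Real.log_exp, Real.log_exp, ← ha]
      have e4 := mul_le_mul_of_nonneg_right hh1 hJ0
      linarith
    constructor
    · intro kk ii
      exact (hall kk ii _ _ _ _ _ _ _ rfl rfl rfl rfl rfl rfl rfl).1.mono hΘ'
    · intro kk ii
      exact (hall kk ii _ _ _ _ _ _ _ rfl rfl rfl rfl rfl rfl rfl).2.mono hΘ'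
  · have hhJ : 0 < h₀ * (J : ℝ) := by positivity
    rw [← mul_div_assoc, div_le_iff₀ hhJ]
    have e1 : 4 * ((D : ℝ) * n₀) * C * (ρ' * J) ≤ c / 2 * (h₀ * J) := by
      have e2 : 4 * ((D : ℝ) * n₀) * C * ρ' ≤ c / 2 * h₀ := by
        have e3 : 0 ≤ C * ρ' := by positivity
        have e4 : 8 * ((D : ℝ) * n₀ + 1) * C * ρ' = 8 * ((D : ℝ) * n₀) * C * ρ' +
            8 * (C * ρ') := by ring
        linarith
      have e5 := mul_le_mul_of_nonneg_right e2 hJ0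
      linarith
    linarith

end Pool.JPN
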