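import Pool.Agent.H53.JM.Tdc
import Pool.Agent.H86.GEO.Arr
import Pool.Agent.H86.GEO.Prm

/-!
# The slice events of the geometry of the pairs

`slf_mem`: outside of a small set of pairs, for all branches, a bound of the difference of the two
leaves on the slice of a cell gives a bound on the cell, for the small and for the large cell; for
one member. `slf_cls`: the same in a class.
-/

set_option autoImplicit false

namespace Pool.JPN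

open Finset Real MvPolynomial
open Pool.Agent.H49.Ent Pool.Agent.H32.Dense Pool.STK Pool.KA Pool.KSAT Pool.K2S Pool.PB
  Pool.STAT Pool.STAT.CLO Pool.GEN Pool.M3F Pool.KM7 Pool.S6C
open Pool.GRW (TmWn)
open Pool.GEO (gsy gsy_zero gsy_deg xte lna lnb xte_dig xte_line nw nw_pos nw_mul ren)
open Pool.IEN (ms ms_le ms_or ms_ex ms_nonneg)
open Pool.JMS (SF slc_fin)

variable {m J : ℕ} {F : Fam m J}

/-- **The slice events**, for one member. -/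
theorem slf_mem (k K₀ K₂ : ℕ) : ∃ (C : ℝ) (Kf : ℕ), 1 ≤ C ∧
    ∀ {m J : ℕ} {F : Fam m J} {A : F.Ω → Prop} {c₀ : ℕ → Fin m} {D n₀ W₀ W₁ Pr sg₀ sg q X : ℕ}
      {g₀ : ℕ → ℕ} {L : ℝ} {V₀ V₁ : Type} {z₀ : PtT F → V₀} {z₀' : LnT F → V₀}
      {P₀ : V₀ → ℕ → PN} {z₁ : PtT F → V₁} {z₁' : LnT F → V₁} {P₁ : V₁ → ℕ → PN}
      {Qh : V₁ → MvPolynomial (Option (Fin (k + 1))) ℝ} {r : F.Ω × F.Ω → ℝ}, IsLaw r →
      NLabW F c₀ k W₀ sg₀ g₀ K₀ L A z₀ z₀' P₀ →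
      (∀ ω, A ω → z₁ (ptr F J ω) = z₁' (slam F W₁ ω)) → (∀ v i, (P₁ v i).totalDegree ≤ K₀) →
      W₀ ≤ W₁ → (∀ i < k + 1, wid W₀ g₀ i + q + X ≤ Pr) →
      ∀ (ρ : Equiv.Perm (Fin (k + 1)))
      {aF : (Fin (k + 1) → MvPolynomial (Fin (k + 1)) ℝ) →
        MvPolynomial (Option (Fin (k + 1))) ℝ → (Fin (k + 1) → ℤ) → Fin D → Fin n₀ →
          MvPolynomial (Fin (k + 1)) ℝ}, (∀ G Q b kk ii, (aF G Q b kk ii).totalDegree ≤ K₂) →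
      (∀ e, 0 < r e → A e.1 ∧ slam F W₀ e.1 = slam F W₀ e.2) →
      ∀ {h μ : ℝ}, 0 < h → C * Real.exp h ≤ ((2 ^ (Pr - W₀ - q) : ℕ) : ℝ) →
      Real.log ((2 ^ (Pr - W₀ - q) : ℕ) : ℝ) -
        CH r (fun e => nrem (nw W₀ Pr g₀ k q) (ngp F c₀ k W₀ W₁ sg Pr z₀' P₀ e) 0)
          (fun e => ((slam F W₁ e.1, e.2), nidx (nw W₀ Pr g₀ k q)
            (ngp F c₀ k W₀ W₁ sg Pr z₀' P₀ e))) ≤ μ →
      Real.log ((2 ^ (Pr - W₀) : ℕ) : ℝ) -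
        CH r (fun e => nrem (nw W₀ Pr g₀ k 0) (ngp F c₀ k W₀ W₁ sg Pr z₀' P₀ e) 0)
          (fun e => (slam F W₀ e.1, nidx (nw W₀ Pr g₀ k 0)
            (ngp F c₀ k W₀ W₁ sg Pr z₀' P₀ e))) ≤ μ →
      ms r (fun e => ¬ ∀ (kk : Fin D) (ii : Fin n₀) (M : ℕ) (N₂ N₃ : Fin (k + 1) → ℕ)
        (G : Fin (k + 1) → MvPolynomial (Fin (k + 1)) ℝ) (b₂ : Fin (k + 1) → ℤ)
        (y : Fin (k + 1) → ℝ) (f : MvPolynomial (Fin (k + 1)) ℝ), M = 2 ^ (Pr - W₁) →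
        N₂ = nw W₀ Pr g₀ k q → N₃ = nw W₀ Pr g₀ k (q + X) →
        G = gsy k W₁ (P₀ (z₀ (ptr F J e.1))) → y = bse (xte c₀ k W₁ Pr sg F e.1) →
        b₂ = nidx N₂ (ndg M G y) →
        f = bind₁ (nchi M N₂ G b₂) (rename ρ (toF (k + 1) W₁ (P₁ (z₁ (ptr F J e.1)) (k + 1)))) -
          aF G (ren ρ (Qh (z₁ (ptr F J e.2)))) b₂ kk ii →
        SF (C * Real.exp ((k * Kf + 1 : ℕ) * h)) M (2 ^ X) N₃ G f y ∧
        SF (C * Real.exp ((k * Kf + 1 : ℕ) * h)) M 1 N₂ G f y) ≤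
      2 * (D * n₀) * (C * (2 * μ + 1) / h) := by
  classical
  obtain ⟨C, hC, hslc⟩ := slc_fin k (max K₂ ((K₀ + 1) ^ (k + 1) * K₀)) K₀
  refine ⟨C, max K₂ ((K₀ + 1) ^ (k + 1) * K₀), hC, ?_⟩
  intro m J F A c₀ D n₀ W₀ W₁ Pr sg₀ sg q X g₀ L V₀ V₁ z₀ z₀' P₀ z₁ z₁' P₁ Qh r hr hN₀ hc₁ hP₁
    hW hwid ρ aF haF hsup h μ hh hCh hd1 hd2
  set Kf : ℕ := max K₂ ((K₀ + 1) ^ (k + 1) * K₀) with hKf
  have hr0 := hr.nonneg
  obtain ⟨M, hM⟩ : ∃ M : ℕ, M = 2 ^ (Pr - W₁) := ⟨_, rfl⟩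
  have hM1 : 1 ≤ M := by rw [hM]; exact Nat.one_le_two_pow
  obtain ⟨N₂, hN₂⟩ : ∃ N₂ : Fin (k + 1) → ℕ, N₂ = nw W₀ Pr g₀ k q := ⟨_, rfl⟩
  obtain ⟨N₃, hN₃⟩ : ∃ N₃ : Fin (k + 1) → ℕ, N₃ = nw W₀ Pr g₀ k (q + X) := ⟨_, rfl⟩
  obtain ⟨N₀, hN₀'⟩ : ∃ N₀ : Fin (k + 1) → ℕ, N₀ = nw W₀ Pr g₀ k 0 := ⟨_, rfl⟩
  have hN₂1 : ∀ i, 1 ≤ N₂ i := fun i => by rw [hN₂]; exact nw_pos _ _ _ _ _ _
  have hN₃1 : ∀ i, 1 ≤ N₃ i := fun i => by rw [hN₃]; exact nw_pos _ _ _ _ _ _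
  have hmul : (fun i => 2 ^ X * N₃ i) = N₂ := by
    rw [hN₂, hN₃]
    exact nw_mul hwid
  have hmul1 : (fun i => 1 * N₂ i) = N₂ := funext fun i => one_mul _
  have hmul0 : (fun i => 2 ^ q * N₂ i) = N₀ := by
    rw [hN₂, hN₀']
    have := nw_mul (W₀ := W₀) (Pr := Pr) (g := g₀) (k := k) (q := 0) (X := q) (fun i hi => by
      have := hwid i hi
      omega)
    rw [Nat.zero_add] at this
    exact this
  have w0 : wid W₀ g₀ ((0 : Fin (k + 1)) : ℕ) = W₀ := by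
    rw [Fin.val_zero]
    rfl
  have hN₂0 : N₂ 0 = 2 ^ (Pr - W₀ - q) := by
    rw [hN₂]
    unfold nw
    rw [w0]
  have hN₀0 : N₀ 0 = 2 ^ (Pr - W₀) := by
    rw [hN₀']
    unfold nw
    rw [w0, Nat.sub_zero]
  rw [← hN₂, ← hN₂0] at hd1
  rw [← hN₀', ← hN₀0] at hd2
  rw [← hN₂0] at hCh
  -- the labels
  obtain ⟨y, hy⟩ : ∃ y : F.Ω × F.Ω → Fin (k + 1) → ℝ, y = fun e =>
    bse (xte c₀ k W₁ Pr sg F e.1) := ⟨_, rfl⟩
  obtain ⟨ng, hng⟩ : ∃ ng : F.Ω × F.Ω → Fin (k + 1) → ℤ, ng =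
    ngp F c₀ k W₀ W₁ sg Pr z₀' P₀ := ⟨_, rfl⟩
  rw [← hng] at hd1 hd2
  obtain ⟨Gγ, hGγ⟩ : ∃ Gγ : (LnT F × F.Ω) × (Fin (k + 1) → ℤ) →
      Fin (k + 1) → MvPolynomial (Fin (k + 1)) ℝ, Gγ = fun γ =>
    gsy k W₁ (P₀ (z₀' (slam F W₀ γ.1.2))) := ⟨_, rfl⟩
  obtain ⟨fγ, hfγ⟩ : ∃ fγ : Fin D → Fin n₀ → (LnT F × F.Ω) × (Fin (k + 1) → ℤ) →
      MvPolynomial (Fin (k + 1)) ℝ, fγ = fun kk ii γ =>
    bind₁ (nchi M N₂ (Gγ γ) γ.2) (rename ρ (toF (k + 1) W₁ (P₁ (z₁' γ.1.1) (k + 1)))) -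
      aF (Gγ γ) (ren ρ (Qh (z₁ (ptr F J γ.1.2)))) γ.2 kk ii := ⟨_, rfl⟩
  obtain ⟨cl, hcl⟩ : ∃ cl : F.Ω × F.Ω → (LnT F × F.Ω) × (Fin (k + 1) → ℤ), cl = fun e =>
    ((slam F W₁ e.1, e.2), nidx N₂ (ng e)) := ⟨_, rfl⟩
  have hGdeg : ∀ γ i, (Gγ γ i).totalDegree ≤ K₀ := fun γ i => by
    rw [hGγ]
    exact gsy_deg (fun i => hN₀.deg _ i) i
  have hfdeg : ∀ kk ii γ, (fγ kk ii γ).totalDegree ≤ Kf := by
    intro kk ii γ
    rw [hfγ]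
    refine (totalDegree_sub _ _).trans (max_le ?_ ((haF _ _ _ _ _).trans (le_max_left _ _)))
    refine le_trans ?_ (le_max_right _ _)
    refine (Pool.KS3.SML.totalDegree_bind_le _ ((K₀ + 1) ^ (k + 1)) (fun l =>
      Pool.M3F.deg_chiN (Gγ γ) (ncor M N₂ γ.2) (nwid M N₂) K₀ (hGdeg γ) (k + 1) l) _).trans (Nat.mul_le_mul_left _ ?_)
    exact (totalDegree_rename_le _ _).trans ((deg_toF _).trans (hP₁ _ _))
  have hGe : ∀ e, 0 < r e → Gγ (cl e) = gsy k W₁ (P₀ (z₀' (slam F W₀ e.1))) := by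
    intro e he
    rw [hGγ, hcl]
    simp only
    rw [(hsup e he).2]
  have hnge : ∀ e, 0 < r e → ndg M (Gγ (cl e)) (y e) = ng e := by
    intro e he
    rw [hGe e he, hng, hy, hM]
    rfl
  have hG0 : ∀ γ, Gγ γ 0 = 0 := fun γ => by rw [hGγ]; exact gsy_zero _ _ _
  have hyt : ∀ e, 0 < r e → ((ndg M (Gγ (cl e)) (y e) 0 : ℤ) : ℝ) = M * y e 0 := by
    intro e he
    rw [hGe e he, hy, hM]
    exact (xte_dig c₀ k W₁ Pr sg e.1 (G := gsy k W₁ (P₀ (z₀' (slam F W₀ e.1)))) rfl).1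
  have hyl : ∀ e l, y e l = lna c₀ k W₁ sg (F.l e.1) (some l) +
      y e 0 * lnb c₀ k sg (F.l e.1) (some l) := fun e l => by
    rw [hy]
    exact xte_line c₀ k W₁ Pr sg e.1 (some l)
  -- one branch
  have key : ∀ (kk : Fin D) (ii : Fin n₀) (K' : ℕ) (N' : Fin (k + 1) → ℕ), 1 ≤ K' →
      (∀ i, 1 ≤ N' i) → (fun i => K' * N' i) = N₂ →
      ms r (fun e => ¬ SF (C * Real.exp ((k * Kf + 1 : ℕ) * h)) M K' N' (Gγ (cl e))
        (fγ kk ii (cl e)) (y e)) ≤ C * (2 * μ + 1) / h := by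
    intro kk ii K' N' hK' hN' hKN
    have h0' : K' * N' 0 = N₂ 0 := congrFun hKN 0
    have h1 := hslc (F.Ω × F.Ω) ((LnT F × F.Ω) × (Fin (k + 1) → ℤ))
      (LnT F × (Fin (k + 1) → ℤ)) r cl (fun e => (slam F W₀ e.1, nidx N₀ (ng e))) M (2 ^ q) K' N'
      Gγ (fun γ => γ.2) (fγ kk ii) (fun γ l => lna c₀ k W₁ sg γ.1.1.1 (some l))
      (fun γ l => lnb c₀ k sg γ.1.1.1 (some l)) (fun γ => gsy k W₁ (P₀ (z₀' γ.1)))
      (fun γ => γ.2) (fun γ l => lna c₀ k W₁ sg γ.1.1 (some l))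
      (fun γ l => lnb c₀ k sg γ.1.1 (some l)) y h hr hM1 Nat.one_le_two_pow hK' hN' hh (by
        rw [h0']
        exact hCh) (fun e he => by
        refine ⟨hGdeg _, hG0 _, hfdeg _ _ _, ?_, hyt e he, ?_⟩
        · rw [hKN, hnge e he, hcl]
        · intro l
          rw [hcl]
          exact hyl e l) (fun e he => by
        refine ⟨(hGe e he).symm, ?_, ?_, ?_⟩
        · rw [hcl]
          rfl
        · rw [hcl]
          rfl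
        · rw [hcl, ← hmul0]
          exact JMS.nidx_mul (ng e))
    refine h1.trans (div_le_div_of_nonneg_right (mul_le_mul_of_nonneg_left ?_ (by linarith))
      hh.le)
    have e1 : CH r (fun e => nrem N₂ (ng e) 0) cl ≤
        CH r (fun e => nrem (fun i => K' * N' i) (ndg M (Gγ (cl e)) (y e)) 0) cl := by
      rw [hKN]
      refine CH_mono_left hr0 fun e e' he he' h3 => ?_
      have h4 := (Prod.ext_iff.1 h3).1
      simp only [hnge e he, hnge e' he'] at h4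
      exact h4
    have e2 : CH r (fun e => nrem (fun i => 2 ^ q * (K' * N' i)) (ndg M
        (gsy k W₁ (P₀ (z₀' (slam F W₀ e.1)))) (y e)) 0)
        (fun e => (slam F W₀ e.1, nidx N₀ (ng e))) =
        CH r (fun e => nrem N₀ (ng e) 0) (fun e => (slam F W₀ e.1, nidx N₀ (ng e))) := by
      have e3 : (fun i => 2 ^ q * (K' * N' i)) = N₀ := by
        rw [← hmul0, ← hKN]
      rw [e3]
      have e4 : (fun e => nrem N₀ (ndg M (gsy k W₁ (P₀ (z₀' (slam F W₀ e.1)))) (y e)) 0) =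
          fun e => nrem N₀ (ng e) 0 := by
        funext e
        rw [hng, hy, hM]
        rfl
      rw [e4]
    have e5 : 2 ^ q * (K' * N' 0) = N₀ 0 := by
      rw [h0']
      exact congrFun hmul0 0
    have e6 : Real.log ((2 ^ q * (K' * N' 0) : ℕ) : ℝ) = Real.log ((N₀ 0 : ℕ) : ℝ) := by rw [e5]
    have e7 : Real.log ((K' * N' 0 : ℕ) : ℝ) = Real.log ((N₂ 0 : ℕ) : ℝ) := by rw [h0']
    rw [← hcl] at hd1
    rw [e6, e7, e2]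
    linarith
  -- all branches
  have hall := ms_ex hr0 (fun (p : Fin D × Fin n₀) e =>
    ¬ SF (C * Real.exp ((k * Kf + 1 : ℕ) * h)) M (2 ^ X) N₃ (Gγ (cl e)) (fγ p.1 p.2 (cl e))
      (y e) ∨
    ¬ SF (C * Real.exp ((k * Kf + 1 : ℕ) * h)) M 1 N₂ (Gγ (cl e)) (fγ p.1 p.2 (cl e)) (y e))
    (b := 2 * (C * (2 * μ + 1) / h)) (fun p => by
      refine (ms_or hr0 _ _).trans ?_
      have h1 := key p.1 p.2 (2 ^ X) N₃ Nat.one_le_two_pow hN₃1 hmul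
      have h2 := key p.1 p.2 1 N₂ le_rfl hN₂1 hmul1
      linarith)
  refine (ms_le hr0 ?_).trans (hall.trans (le_of_eq ?_))
  · intro e he hnot
    by_contra hcon
    push Not at hcon
    refine hnot ?_
    intro kk ii M' N₂' N₃' G b₂ y' f hM' hN₂'' hN₃'' hG hy' hb₂ hf
    obtain ⟨h1, h2⟩ := hcon (kk, ii)
    have a0 : M' = M := by rw [hM', hM]
    have a1 : N₂' = N₂ := by rw [hN₂'', hN₂]
    have a2 : N₃' = N₃ := by rw [hN₃'', hN₃]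
    have a3 : y' = y e := by rw [hy', hy]
    have a4 : G = Gγ (cl e) := by rw [hG, hGe e he, hN₀.cls _ (hsup e he).1]
    have a5 : b₂ = (cl e).2 := by
      rw [hb₂, a0, a1, a3, a4, hnge e he, hcl]
    have a6 : f = fγ kk ii (cl e) := by
      rw [hf, hfγ, a0, a1, a4, a5, hc₁ _ (hsup e he).1]
      rw [hcl]
    rw [a0, a1, a2, a3, a4, a6]
    exact ⟨h1, h2⟩
  · rw [Fintype.card_prod, Fintype.card_fin, Fintype.card_fin]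
    push_cast
    ring

end Pool.JPN
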